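import Pool.Agent.W5h11.Wheels.Stars
import Pool.Agent.W5h11.Wheels.Count

/-!
# Turan numbers of disjoint unions of odd wheels: the conjectured formula fails

Let `F` be the vertex-disjoint union of the odd wheels `W_{2k_1+1}, …, W_{2k_m+1}`, where
`k_1 ≥ … ≥ k_m ≥ 2`, and `F*` the disjoint union of the stars `S_{k_1+1}, …, S_{k_m+1}`. The
conjectured value of `ex(n, F)` for large `n` is the maximum of `n₀ (n - n₀) + ex(n₀, F*) + 1`
over `1 ≤ n₀ ≤ n`.

Counterexamples: the join of `K_{m-1}` with the graph obtained from a balanced complete bipartite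
graph by adding maximum matchings in both sides contains no `m` disjoint wheels
with an even cycle as rim (a wheel without universal vertices has all its rim vertices in a
neighbourhood, and the neighbourhoods are windmills). It has `n² / 4 + m n / 2 - O(1)` edges. If
`k_i ≤ 2 (m + 1 - i)` for all `i` (so `k_m = 2`; for example, all wheels are `W_5`), then
`ex(n₀, F*) ≤ (2 m - 1) n₀ / 2 + O(1)` and the conjectured value is at most
`n² / 4 + (2 m - 1) n / 4 + O(1)`.
-/

set_option autoImplicit false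

namespace Pool.Agent.Results.MP_f45649_co.UnionsWithW5

open SimpleGraph Finset Pool.Agent.W5h11.Wheels

theorem ex_stars_le {m : ℕ} (hm : 1 ≤ m) (k : Fin m → ℕ) (hk1 : ∀ i, 1 ≤ k i)
    (hk2 : ∀ i, k i ≤ 2 * (m - i)) (hk3 : Antitone k) :
    ∃ C : ℕ, ∀ n : ℕ, 2 * extremalNumber n (stars k) + n ≤ 2 * m * n + C := by
  classical
  obtain ⟨C, hC⟩ := stars_upper m k hk1 hk2 hk3
  refine ⟨C, fun n => ?_⟩
  have h1 : n ≤ 2 * m * n + C := by nlinarith
  have h2 : extremalNumber (Fintype.card (Fin n)) (stars k) ≤ (2 * m * n + C - n) / 2 := by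
    rw [extremalNumber_le_iff]
    intro G _ hG
    have := hC (Fin n) G hG
    rw [Fintype.card_fin] at this
    omega
  rw [Fintype.card_fin] at h2
  omega

theorem main {m : ℕ} (hm : 1 ≤ m) (k : Fin m → ℕ) (hk3 : Antitone k)
    (hk : ∀ i, 2 ≤ k i ∧ k i ≤ 2 * (m - i)) :
    ∃ C : ℕ, ∀ n : ℕ, 4 * conjValue k n + n ≤ 4 * extremalNumber n (wheels k) + C := by
  classical
  obtain ⟨C₀, hC₀⟩ := ex_stars_le hm k (fun i => by have := (hk i).1; omega) (fun i => (hk i).2) hk3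
  obtain ⟨q, rfl⟩ : ∃ q, m = q + 1 := ⟨m - 1, by omega⟩
  -- upper bound for the conjectured value
  have hup : ∀ n : ℕ, 4 * conjValue k n ≤
      n ^ 2 + (2 * q + 1) * n + ((2 * q + 1) ^ 2 + 2 * C₀ + 4) := by
    intro n
    have h1 : conjValue k n ≤ (n ^ 2 + (2 * q + 1) * n + ((2 * q + 1) ^ 2 + 2 * C₀ + 4)) / 4 := by
      refine Finset.sup_le fun x hx => ?_
      rw [Finset.mem_Icc] at hx
      have h2 := hC₀ x
      rw [Nat.le_div_iff_mul_le (by norm_num)]
      obtain ⟨y, rfl⟩ : ∃ y, n = x + y := ⟨n - x, by omega⟩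
      rw [Nat.add_sub_cancel_left]
      zify at h2 ⊢
      nlinarith [sq_nonneg (2 * (x : ℤ) - 2 * y - (2 * q + 1))]
    have h2 := Nat.div_mul_le_self
      (n ^ 2 + (2 * q + 1) * n + ((2 * q + 1) ^ 2 + 2 * C₀ + 4)) 4
    omega
  refine ⟨(2 * q + 1) ^ 2 + 2 * C₀ + 4 + q ^ 2 + 4 * q + 5 + (q ^ 2 + 2 * (q + 1) * q), fun n => ?_⟩
  have hupn := hup n
  rcases Nat.lt_or_ge n q with hn | hn
  · have h1 : n ^ 2 ≤ q ^ 2 := Nat.pow_le_pow_left hn.le 2
    have h2 : 2 * (q + 1) * n ≤ 2 * (q + 1) * q := Nat.mul_le_mul_left _ hn.le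
    nlinarith
  · obtain ⟨r, rfl⟩ : ∃ r, n = q + r := ⟨n - q, by omega⟩
    obtain ⟨a, b, hab, hr⟩ : ∃ a b, (b = a ∨ b = a + 1) ∧ r = a + b :=
      ⟨r / 2, r - r / 2, by omega, by omega⟩
    have hfree := extG_free (q := q) (a := a) (b := b) k (fun i => (hk i).1)
    have h1 := card_edgeFinset_le_extremalNumber hfree
    have h2 := edges_extG q a b
    have h3 : Fintype.card (Fin q ⊕ (Fin a ⊕ Fin b)) = q + r := by
      rw [Fintype.card_sum, Fintype.card_sum, Fintype.card_fin, Fintype.card_fin, Fintype.card_fin,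
        hr]
    rw [h3] at h1
    subst hr
    rcases hab with rfl | rfl
    · nlinarith
    · nlinarith

/-- **The conjecture is false.** Let `m ≥ 1` and `k_1 ≥ … ≥ k_m ≥ 2` with `k_i ≤ 2 (m + 1 - i)` for
`i = 1, …, m` (with the indices `0, …, m - 1` in the statement below); for example `k_i = 2` for
all `i`. Then `ex(n, F)` exceeds the conjectured value by at least `n / 4 - O(1)`. -/
theorem result :
    (∀ (m : ℕ) (k : Fin m → ℕ), 1 ≤ m → Antitone k → (∀ i, 2 ≤ k i ∧ k i ≤ 2 * (m - i)) →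
      ∃ C : ℕ, ∀ n : ℕ, 4 * conjValue k n + n ≤ 4 * extremalNumber n (wheels k) + C) ∧
    ¬ ∀ (m : ℕ) (k : Fin m → ℕ), 1 ≤ m → Antitone k → (∀ i, 2 ≤ k i) →
      ∃ n₀ : ℕ, ∀ n : ℕ, n₀ ≤ n → extremalNumber n (wheels k) = conjValue k n := by
  refine ⟨fun m k hm h1 h2 => main hm k h1 h2, fun hcon => ?_⟩
  obtain ⟨C, hC⟩ := main (le_refl 1) (fun _ : Fin 1 => 2) antitone_const
    (fun i => ⟨le_rfl, by have := i.2; omega⟩)
  obtain ⟨n₀, hn₀⟩ := hcon 1 (fun _ => 2) le_rfl antitone_const (fun _ => le_rfl)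
  have h1 := hn₀ (n₀ + C + 1) (by omega)
  have h2 := hC (n₀ + C + 1)
  rw [h1] at h2
  omega

end Pool.Agent.Results.MP_f45649_co.UnionsWithW5
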